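import Pool.Agent.MT100B.Stmts
import Pool.Agent.Helper26_MT100.DenW

/-!
# Module DEN of MT100B: the exceptional integers have density zero
-/

set_option autoImplicit false

namespace Pool.Agent.MT100B.H26

open Filter Topology Matrix
open Pool.Agent.MT100 Pool.Agent.MT100B Pool.Agent.Helper26_MT100

theorem sb_neg_one (x : ℝ) : Sb x (-1) := by
  refine summable_of_ne_finset_zero (s := {0}) fun k hk => ?_
  rw [Finset.mem_singleton] at hk
  rw [map_neg, PowerSeries.coeff_one, if_neg hk]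
  simp

theorem ev_neg_one (x : ℝ) : ev (-1) x = -1 := by
  unfold ev
  rw [tsum_eq_single 0]
  · simp
  · intro k hk
    rw [map_neg, PowerSeries.coeff_one, if_neg hk]
    simp

theorem ev_sub (hE : EvaStmt) (x : ℝ) (f g : PowerSeries ℚ) (hf : Sb x f) (hg : Sb x g) :
    Sb x (f - g) ∧ ev (f - g) x = ev f x - ev g x := by
  obtain ⟨h1, -, -, h2⟩ := hE.2.2.1 (-1) g x (sb_neg_one x) hg
  obtain ⟨-, h3, h4, -⟩ := hE.2.2.1 f (-1 * g) x hf h1
  have h5 : f - g = f + -1 * g := by ring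
  rw [h5]
  refine ⟨h3, ?_⟩
  rw [h4, h2, ev_neg_one]
  ring

/-- The corner pair. -/
def cz (D : Dat) : AI (ro D) := ⟨(fz D, fo D), by
  show (0 : ℕ) < 1
  exact Nat.one_pos⟩

/-- The value of the first row of the exterior square. -/
theorem ev_ex (hE : EvaStmt) (x : ℝ) {r : ℕ} (T : Matrix (Fin r) (Fin r) (PowerSeries ℚ))
    (hT : ∀ i j, Sb x (T i j)) (β0 β : AI r) :
    Sb x (ex T β0 β) ∧
    ev (ex T β0 β) x = ev (T β0.1.1 β.1.1) x * ev (T β0.1.2 β.1.2) x -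
      ev (T β0.1.1 β.1.2) x * ev (T β0.1.2 β.1.1) x := by
  obtain ⟨h1, -, -, h2⟩ := hE.2.2.1 (T β0.1.1 β.1.1) (T β0.1.2 β.1.2) x (hT _ _) (hT _ _)
  obtain ⟨h3, -, -, h4⟩ := hE.2.2.1 (T β0.1.1 β.1.2) (T β0.1.2 β.1.1) x (hT _ _) (hT _ _)
  obtain ⟨h5, h6⟩ := ev_sub hE x _ _ h1 h3
  unfold ex
  exact ⟨h5, by rw [h6, h2, h4]⟩

/-- DEN. -/
theorem denStmt (hEx : ExmStmt) (hE : EvaStmt) (hG : GfnStmt) (hTra : MT100B.TraStmt)
    (hSys : MT100B.SysStmt) (hKr : MT100.SysStmt) (hVal : MT100B.ValStmt)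
    (hFre : MT100B.FreStmt) : MT100B.DenStmt := by
  intro D P hP
  apply densZero_of
  set F : ℕ → ℕ → Fin (ro D) → ℂ := fun κ n l =>
    ((ev (MT100B.Tr D κ (MT100B.fz D) l) ((n : ℝ))⁻¹ : ℝ) : ℂ) with hF
  set G : ℕ → ℕ → Fin (ro D) → ℂ := fun κ n l =>
    ((ev (MT100B.Tr D κ (fo D) l) ((n : ℝ))⁻¹ : ℝ) : ℂ) with hG'
  set x : ℕ → ℕ → AI (ro D) → ℂ := fun κ n α =>
    F κ n α.1.1 * G κ n α.1.2 - F κ n α.1.2 * G κ n α.1.1 with hx
  set M : ℕ → Matrix (Fin (ro D)) (Fin (ro D)) ℂ := fun n =>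
    P * ((en (ro D) (-Real.log (n : ℝ))).map (Complex.ofRealHom))ᵀ with hM
  have hMdet : ∀ n, IsUnit (M n).det := by
    intro n
    have h1 : (M n).det = P.det := by
      rw [hM]
      show (P * ((en (ro D) (-Real.log (n : ℝ))).map (Complex.ofRealHom))ᵀ).det = P.det
      rw [Matrix.det_mul, Matrix.det_transpose, ← RingHom.mapMatrix_apply, ← RingHom.map_det,
        det_en, map_one, mul_one]
    rw [h1]
    exact hP
  have hexdet : ∀ n, IsUnit (ex (M n)).det := by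
    intro n
    have h1 : M n * (M n)⁻¹ = 1 := Matrix.mul_nonsing_inv _ (hMdet n)
    have h2 : ex (M n) * ex (M n)⁻¹ = 1 := by
      rw [← hEx.1, h1, hEx.2.1]
    exact IsUnit.of_mul_eq_one _ (by rw [← Matrix.det_mul, h2, Matrix.det_one])
  refine (den x (fun n => ex (M n)) hexdet {n | MT100B.Exc D P n} ?_ ?_).2
  · intro K
    have h1 : ∀ κ : ℕ, ∃ n1 : ℕ, ∀ n ≥ n1, MT100B.W D ((n : ℝ) - κ) =
        (MT100B.Tr D κ).map (fun f => ev f ((n : ℝ))⁻¹) * en (ro D) (-Real.log (n : ℝ)) := by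
      intro κ
      have h2 := (tendsto_natCast_atTop_atTop (R := ℝ)).eventually (hVal D κ)
      exact eventually_atTop.1 h2
    choose n1 hn1 using h1
    refine ⟨max K ((Finset.range K).sup n1), fun n hn κ hκ hex => ?_⟩
    have hκn : κ ≤ n := le_trans hκ.le (le_trans (le_max_left _ _) hn)
    have hW := hn1 κ n (le_trans (Finset.le_sup (f := n1) (Finset.mem_range.2 hκ))
      (le_trans (le_max_right _ _) hn))
    obtain ⟨-, q, hq0, hq⟩ := hex
    refine ⟨q, hq0, ?_⟩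
    have hper : ∀ a, MT100B.per D P (n - κ) a = M n *ᵥ fun l =>
        ((ev (MT100B.Tr D κ a l) ((n : ℝ))⁻¹ : ℝ) : ℂ) := by
      intro a
      unfold MT100B.per
      rw [hM]
      show P *ᵥ _ = (P * ((en (ro D) (-Real.log (n : ℝ))).map (Complex.ofRealHom))ᵀ) *ᵥ _
      rw [← Matrix.mulVec_mulVec]
      congr 1
      funext i
      rw [Nat.cast_sub hκn, hW]
      rw [Matrix.mul_apply, Matrix.mulVec, dotProduct]
      push_cast
      refine Finset.sum_congr rfl fun l _ => ?_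
      rw [mul_comm]
      rfl
    rw [← hq]
    refine Finset.sum_congr rfl fun a _ => ?_
    rw [hper, hper, hEx.2.2.2 (ro D) ℂ (M n) (F κ n) (G κ n) a, Finset.mul_sum]
    refine Finset.sum_congr rfl fun b _ => ?_
    rw [hx]
    ring
  · intro J κ hκ
    have hTr : ∀ i, IsG (MT100B.Tr D (κ i)) := fun i => hTra D (κ i)
    have hex : ∀ i, IsG (ex (MT100B.Tr D (κ i))) := fun i => hSys _ _ (hTr i)
    have hkr : IsG (kr fun i => ex (MT100B.Tr D (κ i))) := hKr.2 _ _ _ hex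
    obtain ⟨n0, hn0⟩ := hG _ _ hkr (hFre D (Fin J) κ hκ)
    have hconv : ∀ p : Fin J × Fin (ro D) × Fin (ro D), ∃ n2 : ℕ, ∀ n ≥ n2,
        Sb ((n : ℝ))⁻¹ (MT100B.Tr D (κ p.1) p.2.1 p.2.2) := by
      intro p
      obtain ⟨Kk, N, q, B, hgs⟩ := hTr p.1
      obtain ⟨δ, hδ, hs⟩ := hE.1 _ (hgs.gH p.2.1 p.2.2)
      have h3 : Tendsto (fun n : ℕ => ((n : ℝ))⁻¹) atTop (𝓝 0) :=
        tendsto_inv_atTop_nhds_zero_nat
      have h4 := (Metric.tendsto_atTop.1 h3) δ hδ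
      obtain ⟨n2, hn2⟩ := h4
      refine ⟨n2, fun n hn => hs _ ?_⟩
      have := hn2 n hn
      rwa [Real.dist_eq, sub_zero] at this
    choose n2 hn2 using hconv
    refine ⟨max n0 (Finset.univ.sup n2), fun n hn c hc => ?_⟩
    have hn0' : n0 ≤ n := le_trans (le_max_left _ _) hn
    have hSb : ∀ i a b, Sb ((n : ℝ))⁻¹ (MT100B.Tr D (κ i) a b) := fun i a b =>
      hn2 (i, a, b) n (le_trans (Finset.le_sup (f := n2) (Finset.mem_univ (i, a, b)))
        (le_trans (le_max_right _ _) hn))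
    have hval : ∀ β : Fin J → AI (ro D),
        ev (kr (fun i => ex (MT100B.Tr D (κ i))) (fun _ => cz D) β) ((n : ℝ))⁻¹ =
        ∏ i, (ev (MT100B.Tr D (κ i) (MT100B.fz D) (β i).1.1) ((n : ℝ))⁻¹ *
            ev (MT100B.Tr D (κ i) (fo D) (β i).1.2) ((n : ℝ))⁻¹ -
          ev (MT100B.Tr D (κ i) (MT100B.fz D) (β i).1.2) ((n : ℝ))⁻¹ *
            ev (MT100B.Tr D (κ i) (fo D) (β i).1.1) ((n : ℝ))⁻¹) := by
      intro β
      have h5 : ∀ i ∈ (Finset.univ : Finset (Fin J)), Sb ((n : ℝ))⁻¹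
          (ex (MT100B.Tr D (κ i)) (cz D) (β i)) := fun i _ =>
        (ev_ex hE _ _ (hSb i) (cz D) (β i)).1
      have h6 := (ev_prod hE ((n : ℝ))⁻¹ Finset.univ
        (fun i => ex (MT100B.Tr D (κ i)) (cz D) (β i)) h5).2
      show ev (∏ i, ex (MT100B.Tr D (κ i)) (cz D) (β i)) ((n : ℝ))⁻¹ = _
      rw [h6]
      refine Finset.prod_congr rfl fun i _ => ?_
      exact (ev_ex hE _ _ (hSb i) (cz D) (β i)).2
    have hmain := hn0 n hn0' (fun β' β => if β' = (fun _ => cz D) then c β else 0) ?_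
    · funext β
      have h7 := congrFun (congrFun hmain (fun _ => cz D)) β
      simpa using h7
    · rw [Finset.sum_eq_single (fun _ => cz D)]
      · simp only [if_true]
        have h9 : ((∑ β : Fin J → AI (ro D), (c β : ℝ) * ∏ i,
            (ev (MT100B.Tr D (κ i) (MT100B.fz D) (β i).1.1) ((n : ℝ))⁻¹ *
                ev (MT100B.Tr D (κ i) (fo D) (β i).1.2) ((n : ℝ))⁻¹ -
              ev (MT100B.Tr D (κ i) (MT100B.fz D) (β i).1.2) ((n : ℝ))⁻¹ *
                ev (MT100B.Tr D (κ i) (fo D) (β i).1.1) ((n : ℝ))⁻¹) : ℝ) : ℂ) = 0 := by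
          rw [← hc]
          push_cast
          rfl
        have h10 := Complex.ofReal_eq_zero.1 h9
        rw [← h10]
        refine Finset.sum_congr rfl fun β _ => ?_
        rw [hval]
      · intro β' _ hβ'
        refine Finset.sum_eq_zero fun β _ => ?_
        rw [if_neg hβ']
        simp
      · intro h
        exact absurd (Finset.mem_univ _) h

end Pool.Agent.MT100B.H26
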