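import Pool.Agent.MT100B.StmtsP
import Pool.Agent.Helper26_MT100.Dep
import Pool.Agent.Helper26_MT100B.Den

/-!
# Module DEP of MT100B: windows and density for the polynomial parameter
-/

set_option autoImplicit false

namespace Pool.Agent.MT100B.H26

open Filter Topology Matrix Polynomial
open Pool.Agent.MT100 Pool.Agent.MT100B Pool.Agent.Helper26_MT100

/-- The number of pairs. -/
theorem card_AI (r : ℕ) : Fintype.card (AI r) = r * (r - 1) / 2 := by
  have h1 : Fintype.card (AI r) = ∑ j : Fin r, (j : ℕ) := by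
    rw [Fintype.card_subtype, Finset.card_filter, ← Finset.univ_product_univ,
      Finset.sum_product_right]
    refine Finset.sum_congr rfl fun j _ => ?_
    rw [← Finset.card_filter]
    have h2 : Finset.filter (fun i : Fin r => i < j) Finset.univ = Finset.Iio j := by
      ext i
      simp
    rw [h2, Fin.card_Iio]
  rw [h1, Fin.sum_univ_eq_sum_range (fun j => j) r, Finset.sum_range_id]

/-- the windows for a parameter with free systems -/
theorem win_of_free (hEx : ExmStmt) (hE : EvaStmt) (hSys : MT100B.SysStmt)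
    (hGdn : GdnStmt) (hTrp : MT100B.TrpStmt) (hVap : MT100B.VapStmt) (D : Dat) (φ : ℚ[X])
    (hdeg : 0 < φ.natDegree) (hlead : 0 < φ.leadingCoeff)
    (hfree : ∀ (ι : Type) [Fintype ι] [DecidableEq ι] (κ : ι → ℕ), Function.Injective κ →
      FreeE (kr fun i => ex (MT100B.TrP D φ (κ i)))) :
    ∃ n1 : ℕ → ℕ, ∀ P : Matrix (Fin (ro D)) (Fin (ro D)) ℂ, IsUnit P.det →
      ∀ K n : ℕ, n1 K ≤ n →
        Nat.card {m : ℕ // m ∈ {m : ℕ | MT100B.Excx D P (pv φ m)} ∧ n < m + K ∧ m ≤ n} ≤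
          (ro D * (ro D - 1) / 2) ^ 2 := by
  have hTr : ∀ κ, IsG (MT100B.TrP D φ κ) := fun κ => hTrp D φ hdeg κ
  -- thresholds for the values
  have h1 : ∀ κ : ℕ, ∃ n1 : ℕ, ∀ n ≥ n1, MT100B.W D (pv φ ((n : ℝ) - κ)) =
      (MT100B.TrP D φ κ).map (fun f => ev f ((n : ℝ))⁻¹) *
        en (ro D) (-((φ.natDegree : ℝ) * Real.log (n : ℝ) +
          Real.log (φ.leadingCoeff : ℝ))) := by
    intro κ
    have h2 := (tendsto_natCast_atTop_atTop (R := ℝ)).eventually (hVap D φ hdeg hlead κ)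
    exact eventually_atTop.1 h2
  choose n1 hn1 using h1
  -- thresholds for the convergence
  have hconv : ∀ κ : ℕ, ∃ n2 : ℕ, ∀ n ≥ n2, ∀ a b,
      Sb ((n : ℝ))⁻¹ (MT100B.TrP D φ κ a b) := by
    intro κ
    obtain ⟨Kk, N, q, B, hgs⟩ := hTr κ
    have h2 : ∀ p : Fin (ro D) × Fin (ro D), ∃ n2 : ℕ, ∀ n ≥ n2, Sb ((n : ℝ))⁻¹
        (MT100B.TrP D φ κ p.1 p.2) := by
      intro p
      obtain ⟨δ, hδ, hs⟩ := hE.1 _ (hgs.gH p.1 p.2)
      have h3 : Tendsto (fun n : ℕ => ((n : ℝ))⁻¹) atTop (𝓝 0) :=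
        tendsto_inv_atTop_nhds_zero_nat
      obtain ⟨n2, hn2⟩ := (Metric.tendsto_atTop.1 h3) δ hδ
      refine ⟨n2, fun n hn => hs _ ?_⟩
      have := hn2 n hn
      rwa [Real.dist_eq, sub_zero] at this
    choose n2 hn2 using h2
    refine ⟨Finset.univ.sup n2, fun n hn a b => hn2 (a, b) n ?_⟩
    exact le_trans (Finset.le_sup (f := n2) (Finset.mem_univ (a, b))) hn
  choose n2 hn2 using hconv
  obtain ⟨m1, hm1⟩ := hGdn (AI (ro D)) (cz D) (fun κ => ex (MT100B.TrP D φ κ))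
    (fun κ => hSys _ _ (hTr κ)) hfree
    (fun K => max ((Finset.range K).sup n1) ((Finset.range K).sup n2))
  refine ⟨m1, fun P hP => ?_⟩
  set M : ℕ → Matrix (Fin (ro D)) (Fin (ro D)) ℂ := fun n =>
    P * ((en (ro D) (-((φ.natDegree : ℝ) * Real.log (n : ℝ) +
      Real.log (φ.leadingCoeff : ℝ)))).map (Complex.ofRealHom))ᵀ with hM
  have hMdet : ∀ n, IsUnit (M n).det := by
    intro n
    have h1 : (M n).det = P.det := by
      rw [hM]
      show (P * ((en (ro D) (-((φ.natDegree : ℝ) * Real.log (n : ℝ) +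
        Real.log (φ.leadingCoeff : ℝ)))).map (Complex.ofRealHom))ᵀ).det = P.det
      rw [Matrix.det_mul, Matrix.det_transpose, ← RingHom.mapMatrix_apply, ← RingHom.map_det,
        det_en, map_one, mul_one]
    rw [h1]
    exact hP
  have hexdet : ∀ n, IsUnit (ex (M n)).det := by
    intro n
    have h1 : M n * (M n)⁻¹ = 1 := Matrix.mul_nonsing_inv _ (hMdet n)
    have h2 : ex (M n) * ex (M n)⁻¹ = 1 := by
      rw [← hEx.1, h1, hEx.2.1]
    exact IsUnit.of_mul_eq_one _ (by rw [← Matrix.det_mul, h2, Matrix.det_one])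
  refine fun K n hn => le_trans ((hm1 {m : ℕ | MT100B.Excx D P (pv φ m)}
    (fun n => ex (M n)) hexdet ?_).1 K n hn) ?_
  · intro K n κ hn hκ hκn hS
    have hW := hn1 κ n (le_trans (Finset.le_sup (f := n1) (Finset.mem_range.2 hκ))
      (le_trans (le_max_left _ _) hn))
    have hSb := hn2 κ n (le_trans (Finset.le_sup (f := n2) (Finset.mem_range.2 hκ))
      (le_trans (le_max_right _ _) hn))
    obtain ⟨-, q, hq0, hq⟩ := hS
    refine ⟨q, hq0, ?_⟩
    have hper : ∀ a, MT100B.perx D P (pv φ ((n - κ : ℕ) : ℝ)) a = M n *ᵥ fun l =>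
        ((ev (MT100B.TrP D φ κ a l) ((n : ℝ))⁻¹ : ℝ) : ℂ) := by
      intro a
      unfold MT100B.perx
      rw [hM]
      show P *ᵥ _ = (P * ((en (ro D) (-((φ.natDegree : ℝ) * Real.log (n : ℝ) +
        Real.log (φ.leadingCoeff : ℝ)))).map (Complex.ofRealHom))ᵀ) *ᵥ _
      rw [← Matrix.mulVec_mulVec]
      congr 1
      funext i
      rw [Nat.cast_sub hκn, hW]
      rw [Matrix.mul_apply, Matrix.mulVec, dotProduct]
      push_cast
      refine Finset.sum_congr rfl fun l _ => ?_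
      rw [mul_comm]
      rfl
    rw [← hq]
    refine Finset.sum_congr rfl fun a _ => ?_
    rw [hper, hper, hEx.2.2.2 (ro D) ℂ (M n) _ _ a, Finset.mul_sum]
    refine Finset.sum_congr rfl fun b _ => ?_
    rw [(ev_ex hE _ _ hSb (cz D) b).2]
    have h5 : ((cz D).1.1 : Fin (ro D)) = MT100B.fz D := rfl
    have h6 : ((cz D).1.2 : Fin (ro D)) = fo D := rfl
    rw [h5, h6]
    push_cast
    ring
  · rw [card_AI]

theorem admB_shift (D : Dat) (φ : ℚ[X]) (hφ : AdmB D φ) (m : ℕ) :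
    AdmB D (φ.comp (X - C (m : ℚ))) := by
  obtain ⟨w1, h1, h2, h3⟩ := hφ.root
  refine ⟨?_, ?_, w1 + m, ?_, ?_, ?_⟩
  · rw [natDegree_shift]
    exact hφ.deg
  · rw [lead_shift]
    exact hφ.lead
  · rw [pv_shift, add_sub_cancel_right]
    exact h1
  · intro w hw
    rw [pv_shift]
    exact h2 _ (by linarith)
  · have h4 : derivative (φ.comp (X - C (m : ℚ))) = (derivative φ).comp (X - C (m : ℚ)) := by
      rw [Polynomial.derivative_comp]
      simp
    rw [h4, pv_shift, add_sub_cancel_right]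
    exact h3

/-- DEP; the freeness is only used for parameters which are somewhere at most `λ` on the positive
real line. -/
theorem dep (hEx : ExmStmt) (hE : EvaStmt) (hSys : MT100B.SysStmt) (hGdn : GdnStmt)
    (hTrp : MT100B.TrpStmt) (hVap : MT100B.VapStmt)
    (hFrp : ∀ (D : Dat) (φ : ℚ[X]), AdmB D φ → (∃ x : ℝ, 0 < x ∧ pv φ x ≤ D.lam) →
      ∀ (ι : Type) [Fintype ι] [DecidableEq ι] (κ : ι → ℕ), Function.Injective κ →
        FreeE (kr fun i => ex (MT100B.TrP D φ (κ i)))) : MT100B.DepStmt := by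
  intro D φ hφ
  obtain ⟨x0, hx0, -, -⟩ := hφ.root
  obtain ⟨m, hm⟩ := exists_nat_gt (-x0)
  have hφ' := admB_shift D φ hφ m
  have hpos : ∃ x : ℝ, 0 < x ∧ pv (φ.comp (X - C (m : ℚ))) x ≤ D.lam := by
    refine ⟨x0 + m, by linarith, ?_⟩
    rw [pv_shift, add_sub_cancel_right]
    exact hx0.le
  obtain ⟨n1, hn1⟩ := win_of_free hEx hE hSys hGdn hTrp hVap D _ hφ'.deg hφ'.lead
    (hFrp D _ hφ' hpos)
  refine ⟨n1, fun P hP => ?_⟩
  have hwin : ∀ K n : ℕ, n1 K ≤ n →
      Nat.card {l : ℕ // l ∈ {l : ℕ | MT100B.Excx D P (pv φ l)} ∧ n < l + K ∧ l ≤ n} ≤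
        (ro D * (ro D - 1) / 2) ^ 2 := by
    intro K n hn
    refine (card_shift _ {l : ℕ | MT100B.Excx D P (pv (φ.comp (X - C (m : ℚ))) l)} m ?_ K n).trans
      (hn1 P hP K (n + m) (by omega))
    intro l hl
    show MT100B.Excx D P (pv (φ.comp (X - C (m : ℚ))) ((l + m : ℕ) : ℝ))
    rw [pv_shift]
    push_cast
    rw [add_sub_cancel_right]
    exact hl
  exact ⟨hwin, densZero_of_card _ _ n1 hwin⟩

end Pool.Agent.MT100B.H26
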